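import Pool.Agent.R128.IT.Final

set_option autoImplicit false

/-!
# The inverse Turán number of the 4-cycle (MP_9a04dc_co)

`R128.IT.C4Free H` : `H` has no 4-cycle; `R128.IT.ne G` : the number of edges of `G`.
`R128.IT.InvSet k` : the numbers `e(G)` for finite graphs `G` in which every `C₄`-free subgraph has
fewer than `k` edges, i.e. `ex(G, C₄) < k`.
`R128.IT.exInv k = sSup (InvSet k)`, the inverse Turán number `ex⁻¹(k, C₄)`.

Proof and statements: helper128 (`Pool/Agent/R128/IT/notes.md`); the nibble theorem is the one
formalized by the team project H115R4; the pieces were formalized by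
helper135 helper147 helper168 helper28 helper326 helper339 helper346 helper358 helper45 
helper469 helper510 helper551 helper562 helper670 helper732 helper780 helper85 helper866 
helper99 
-/

namespace Pool.Agent.Results.MP_9a04dc_co.InverseTuranC4

open R128.IT Filter

/-- `ex⁻¹(k, C₄) = (2√2/(3√3)) k^{3/2} + o(k^{3/2})` (and the supremum defining `ex⁻¹(k, C₄)` is over
a bounded set for every `k`). -/
theorem result :
    (∀ k : ℕ, BddAbove (InvSet k)) ∧
    Tendsto (fun k : ℕ => (exInv k : ℝ) / (k : ℝ) ^ ((3 : ℝ) / 2)) atTop
      (nhds (2 * √2 / (3 * √3))) :=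
  inverse_turan_C4

end Pool.Agent.Results.MP_9a04dc_co.InverseTuranC4
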